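import Mathlib

open Filter Topology Set

namespace Pool.Agent.P.MP_13df43_gt

/-- The two-element discrete group. -/
abbrev C2 : Type := Multiplicative (ZMod 2)

/-- `f` depends only on the trace of its argument on `S`. -/
def Dep (f : Set ℝ → C2) (S : Set ℝ) : Prop := ∀ x : Set ℝ, f x = f (x ∩ S)

lemma Dep.mono {f : Set ℝ → C2} {S T : Set ℝ} (h : Dep f S) (hST : S ⊆ T) : Dep f T := by
  intro x
  rw [h x, h (x ∩ T), inter_assoc, inter_eq_right.2 hST]

/-- Functions on the power set of the reals that depend on countably many coordinates. -/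
def Gr : Subgroup (Set ℝ → C2) where
  carrier := {f | ∃ S : Set ℝ, S.Countable ∧ Dep f S}
  one_mem' := ⟨∅, countable_empty, fun _ => rfl⟩
  mul_mem' := by
    rintro f g ⟨S, hS, hf⟩ ⟨T, hT, hg⟩
    refine ⟨S ∪ T, hS.union hT, fun x => ?_⟩
    simp only [Pi.mul_apply]
    rw [← hf.mono subset_union_left x, ← hg.mono subset_union_right x]
  inv_mem' := by
    rintro f ⟨S, hS, hf⟩
    refine ⟨S, hS, fun x => ?_⟩
    simp only [Pi.inv_apply]
    rw [← hf x]

/-- A countable support of an element of `Gr`. -/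
noncomputable def supp (f : Gr) : Set ℝ := Classical.choose f.2

lemma supp_countable (f : Gr) : (supp f).Countable := (Classical.choose_spec f.2).1

lemma dep_supp (f : Gr) : Dep f.1 (supp f) := (Classical.choose_spec f.2).2

lemma omega_bounded (H : Subgroup Gr) (hH : Countable H) : IsCompact (closure (H : Set Gr)) := by
  set S : Set ℝ := ⋃ h : H, supp h.1 with hS
  have hSc : S.Countable := countable_iUnion fun h => supp_countable h.1
  set K : Set (Set ℝ → C2) := {f | Dep f S} with hK
  have hKc : IsClosed K := by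
    have : K = ⋂ x : Set ℝ, {f : Set ℝ → C2 | f x = f (x ∩ S)} := by
      ext f; simp [hK, Dep]
    rw [this]
    exact isClosed_iInter fun x => isClosed_eq (continuous_apply _) (continuous_apply _)
  have hKG : K ⊆ (Gr : Set (Set ℝ → C2)) := fun f hf => ⟨S, hSc, hf⟩
  have hK' : IsCompact ((Subtype.val : Gr → Set ℝ → C2) ⁻¹' K) := by
    rw [Subtype.isCompact_iff]
    have : (Subtype.val : Gr → Set ℝ → C2) '' (Subtype.val ⁻¹' K) = K := by
      apply image_preimage_eq_of_subset
      intro f hf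
      exact ⟨⟨f, hKG hf⟩, rfl⟩
    rw [this]
    exact hKc.isCompact
  refine hK'.of_isClosed_subset isClosed_closure ?_
  refine closure_minimal ?_ (hKc.preimage continuous_subtype_val)
  intro h hh
  exact (dep_supp h).mono (subset_iUnion (fun h : H => supp h.1) ⟨h, hh⟩)

open Classical in
/-- The value prescribed at `M` in the round with fresh coordinate `a`. -/
noncomputable def val (a : ℝ) (M : Set ℝ) : C2 := if a ∈ M then Multiplicative.ofAdd 1 else 1

/-- The move of player O. -/
def mv (F : Finset ℝ) (a : ℝ) : Set Gr :=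
  {f | ∀ M ∈ (insert a F).powerset, f.1 (M : Set ℝ) = val a (M : Set ℝ)}

lemma mv_open (F : Finset ℝ) (a : ℝ) : IsOpen (mv F a) := by
  have : mv F a = ⋂ M ∈ (insert a F).powerset,
      (fun f : Gr => f.1 (M : Set ℝ)) ⁻¹' {val a (M : Set ℝ)} := by
    ext f; simp [mv]
  rw [this]
  refine isOpen_biInter_finset fun M _ => ?_
  exact (isOpen_discrete _).preimage ((continuous_apply _).comp continuous_subtype_val)

lemma mv_nonempty (F : Finset ℝ) (a : ℝ) : (mv F a).Nonempty := by
  refine ⟨⟨val a, {a}, countable_singleton a, fun x => ?_⟩, fun M _ => rfl⟩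
  have : a ∈ x ∩ {a} ↔ a ∈ x := ⟨fun h => h.1, fun h => ⟨h, rfl⟩⟩
  unfold val
  by_cases h : a ∈ x
  · rw [if_pos h, if_pos (this.2 h)]
  · rw [if_neg h, if_neg (fun hh => h (this.1 hh))]

/-- Non-empty open sets. -/
abbrev NO : Type := {U : Set Gr // IsOpen U ∧ U.Nonempty}

/-- The move of player O as a non-empty open set. -/
def mv' (F : Finset ℝ) (a : ℝ) : NO := ⟨mv F a, mv_open F a, mv_nonempty F a⟩

lemma exists_fresh (S : Set ℝ) (hS : S.Countable) : ∃ a, a ∉ S := by
  by_contra h
  push Not at h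
  exact Cardinal.not_countable_real (hS.mono fun x _ => h x)

/-- States of the strategy of O. -/
abbrev St : Type := {p : Finset ℝ × Set ℝ // p.2.Countable}

/-- A fresh coordinate. -/
noncomputable def fresh (p : St) : ℝ := Classical.choose (exists_fresh p.1.2 p.2)

lemma fresh_notMem (p : St) : fresh p ∉ p.1.2 := Classical.choose_spec (exists_fresh p.1.2 p.2)

/-- One round. -/
noncomputable def step (s : NO → Gr) (p : St) : St :=
  ⟨(insert (fresh p) p.1.1, insert (fresh p) (p.1.2 ∪ supp (s (mv' p.1.1 (fresh p))))),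
    (p.2.union (supp_countable _)).insert _⟩

/-- The states of the play. -/
noncomputable def st (s : NO → Gr) : ℕ → St
  | 0 => ⟨(∅, ∅), countable_empty⟩
  | n + 1 => step s (st s n)

lemma st_mono (s : NO → Gr) {m n : ℕ} (h : m ≤ n) : (st s m).1.2 ⊆ (st s n).1.2 := by
  induction h with
  | refl => exact Subset.rfl
  | step _ ih => exact ih.trans (subset_union_left.trans (subset_insert _ _))

lemma st_mono' (s : NO → Gr) {m n : ℕ} (h : m ≤ n) : (st s m).1.1 ⊆ (st s n).1.1 := by
  induction h with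
  | refl => exact Finset.Subset.refl _
  | step _ ih => exact ih.trans (Finset.subset_insert _ _)

lemma fresh_notMem_of_lt (s : NO → Gr) {m n : ℕ} (h : m < n) :
    fresh (st s n) ∉ (st s (m + 1)).1.2 := fun hh => fresh_notMem _ (st_mono s h hh)

lemma fresh_mem (s : NO → Gr) (m : ℕ) : fresh (st s m) ∈ (st s (m + 1)).1.2 := mem_insert _ _

lemma fresh_inj (s : NO → Gr) : Function.Injective fun n => fresh (st s n) := by
  intro m n h
  simp only at h
  rcases lt_trichotomy m n with hlt | heq | hlt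
  · exact absurd (h ▸ fresh_mem s m) (fresh_notMem_of_lt s hlt)
  · exact heq
  · exact absurd (h ▸ fresh_mem s n) (fresh_notMem_of_lt s hlt)

open Classical in
lemma key (s : NO → Gr) (hs : ∀ U, s U ∈ U.1) (M : Set ℕ) (n : ℕ) :
    (s (mv' (st s n).1.1 (fresh (st s n)))).1 ((fun m => fresh (st s m)) '' M) =
      if n ∈ M then Multiplicative.ofAdd 1 else 1 := by
  set d := s (mv' (st s n).1.1 (fresh (st s n))) with hd
  set x : Set ℝ := (fun m => fresh (st s m)) '' M with hx
  have hdep : Dep d.1 (st s (n + 1)).1.2 :=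
    (dep_supp d).mono (subset_union_right.trans (subset_insert _ _))
  set M' : Finset ℝ := (insert (fresh (st s n)) (st s n).1.1).filter (· ∈ x) with hM'
  have h1 : x ∩ (st s (n + 1)).1.2 = (M' : Set ℝ) ∩ (st s (n + 1)).1.2 := by
    ext r
    constructor
    · rintro ⟨hr, hrS⟩
      refine ⟨?_, hrS⟩
      obtain ⟨m, hm, rfl⟩ := hr
      have hmn : m ≤ n := by
        by_contra hlt
        exact fresh_notMem_of_lt s (not_le.1 hlt) hrS
      have : fresh (st s m) ∈ (st s (n + 1)).1.1 :=
        st_mono' s (Nat.succ_le_succ hmn) (Finset.mem_insert_self _ _)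
      exact Finset.mem_coe.2 (Finset.mem_filter.2 ⟨this, ⟨m, hm, rfl⟩⟩)
    · rintro ⟨hr, hrS⟩
      exact ⟨(Finset.mem_filter.1 (Finset.mem_coe.1 hr)).2, hrS⟩
  have h2 : d.1 x = d.1 (M' : Set ℝ) := by rw [hdep x, hdep (M' : Set ℝ), h1]
  have h3 : d.1 (M' : Set ℝ) = val (fresh (st s n)) (M' : Set ℝ) :=
    hs (mv' (st s n).1.1 (fresh (st s n))) M' (Finset.mem_powerset.2 (Finset.filter_subset _ _))
  rw [h2, h3, val]
  have h4 : fresh (st s n) ∈ (M' : Set ℝ) ↔ n ∈ M := by
    rw [Finset.mem_coe, Finset.mem_filter]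
    constructor
    · rintro ⟨-, m, hm, hmn⟩
      rwa [← fresh_inj s hmn]
    · intro hn
      exact ⟨Finset.mem_insert_self _ _, n, hn, rfl⟩
  simp only [h4]

theorem no_stationary (s : NO → Gr) (hs : ∀ U, s U ∈ U.1) :
    ∃ U : ℕ → NO, ∀ (φ : ℕ → ℕ) (a : Gr), StrictMono φ →
      ¬ Tendsto (fun k => s (U (φ k))) atTop (𝓝 a) := by
  classical
  refine ⟨fun n => mv' (st s n).1.1 (fresh (st s n)), fun φ a hφ hlim => ?_⟩
  set M : Set ℕ := φ '' {k | Even k} with hM
  set x : Set ℝ := (fun m => fresh (st s m)) '' M with hx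
  have hc : Continuous fun f : Gr => f.1 x := (continuous_apply _).comp continuous_subtype_val
  have h1 := (hc.tendsto a).comp hlim
  rw [nhds_discrete, tendsto_pure, eventually_atTop] at h1
  obtain ⟨N, hN⟩ := h1
  have e1 := hN (2 * N) (by omega)
  have e2 := hN (2 * N + 1) (by omega)
  simp only [Function.comp] at e1 e2
  rw [hx, key s hs M] at e1 e2
  have m1 : φ (2 * N) ∈ M := ⟨2 * N, even_two_mul N, rfl⟩
  have m2 : φ (2 * N + 1) ∉ M := by
    rintro ⟨k, hk, hkk⟩
    have := hφ.injective hkk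
    subst this
    exact (Nat.not_even_iff_odd.2 (odd_two_mul_add_one N)) hk
  rw [if_pos m1] at e1
  rw [if_neg m2, ← e1] at e2
  exact absurd e2 (by decide)

end Pool.Agent.P.MP_13df43_gt
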